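import Pool.Agent.Y262.EX.Stm

/-!
# Project EX: the norm form is anisotropic; compactness of the quotient
-/

set_option autoImplicit false

namespace Pool.Agent.Y592.EX

open Pool.Agent.Y262.EX

theorem three_dvd {x y : ℤ} (h : (3 : ℤ) ∣ x ^ 2 + y ^ 2) : (3 : ℤ) ∣ x ∧ (3 : ℤ) ∣ y := by
  have key : ∀ a b : ZMod 3, a ^ 2 + b ^ 2 = 0 → a = 0 ∧ b = 0 := by decide
  have h1 : ((x ^ 2 + y ^ 2 : ℤ) : ZMod 3) = 0 := (ZMod.intCast_zmod_eq_zero_iff_dvd _ 3).2 h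
  push_cast at h1
  obtain ⟨h2, h3⟩ := key _ _ h1
  exact ⟨(ZMod.intCast_zmod_eq_zero_iff_dvd _ 3).1 h2, (ZMod.intCast_zmod_eq_zero_iff_dvd _ 3).1 h3⟩

theorem descent (N : ℕ) : ∀ x y u v : ℤ, x.natAbs + y.natAbs + u.natAbs + v.natAbs ≤ N →
    x ^ 2 + y ^ 2 = 3 * (u ^ 2 + v ^ 2) → x = 0 ∧ y = 0 ∧ u = 0 ∧ v = 0 := by
  induction N using Nat.strong_induction_on with
  | _ N ih =>
    intro x y u v hN h
    by_cases h0 : x.natAbs + y.natAbs + u.natAbs + v.natAbs = 0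
    · exact ⟨by omega, by omega, by omega, by omega⟩
    · obtain ⟨⟨x', rfl⟩, ⟨y', rfl⟩⟩ := three_dvd (x := x) (y := y) (by rw [h]; exact dvd_mul_right _ _)
      have h1 : u ^ 2 + v ^ 2 = 3 * (x' ^ 2 + y' ^ 2) := by linarith
      obtain ⟨⟨u', rfl⟩, ⟨v', rfl⟩⟩ := three_dvd (x := u) (y := v)
        (by rw [h1]; exact dvd_mul_right _ _)
      have h2 : x' ^ 2 + y' ^ 2 = 3 * (u' ^ 2 + v' ^ 2) := by linarith
      obtain ⟨a1, a2, a3, a4⟩ := ih (x'.natAbs + y'.natAbs + u'.natAbs + v'.natAbs) (by omega)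
        x' y' u' v' le_rfl h2
      subst a1 a2 a3 a4
      simp

theorem anis : StAnis := by
  intro a b c d h
  obtain ⟨h1, h2, h3, h4⟩ := descent _ a (2 * c) (2 * b) (2 * d) le_rfl (by linarith)
  exact ⟨h1, by omega, by omega, by omega⟩

theorem det_qm (a b c d : ℝ) :
    (qm a b c d).det = a ^ 2 - 12 * b ^ 2 + 4 * c ^ 2 - 12 * d ^ 2 := by
  have h3 : Real.sqrt 3 * Real.sqrt 3 = 3 := Real.mul_self_sqrt (by norm_num)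
  unfold qm
  rw [Matrix.det_fin_two_of]
  linear_combination (-4 * b ^ 2 - 4 * d ^ 2) * h3

theorem bdd : StAnis → StMink → StFin → StBdd := by
  intro hA hM hF
  obtain ⟨C, hC⟩ := hM
  obtain ⟨S, hS, hSN⟩ := hF ⌈2 * C ^ 2⌉₊
  let B : ℝ := ∑ x ∈ S, ∑ i, ∑ j, |((qm x.1 x.2.1 x.2.2.1 x.2.2.2)⁻¹ : Matrix (Fin 2) (Fin 2) ℝ) i j|
  refine ⟨B * C, fun g hg => ?_⟩
  obtain ⟨a, b, c, d, hne, hbd⟩ := hC g hg
  have hC0 : 0 ≤ C := (abs_nonneg _).trans (hbd 0 0)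
  set h := qm a b c d * g with hh
  have hdet : h.det = ((a ^ 2 - 12 * b ^ 2 + 4 * c ^ 2 - 12 * d ^ 2 : ℤ) : ℝ) := by
    rw [hh, Matrix.det_mul, hg, mul_one, det_qm]
    push_cast
    ring
  have hdb : |h.det| ≤ 2 * C ^ 2 := by
    rw [Matrix.det_fin_two]
    have h1 : |h 0 0 * h 1 1| ≤ C * C := by
      rw [abs_mul]
      exact mul_le_mul (hbd 0 0) (hbd 1 1) (abs_nonneg _) hC0
    have h2 : |h 0 1 * h 1 0| ≤ C * C := by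
      rw [abs_mul]
      exact mul_le_mul (hbd 0 1) (hbd 1 0) (abs_nonneg _) hC0
    have h3 := abs_sub (h 0 0 * h 1 1) (h 0 1 * h 1 0)
    nlinarith
  have hn0 : a ^ 2 - 12 * b ^ 2 + 4 * c ^ 2 - 12 * d ^ 2 ≠ 0 := fun h0 => hne (hA a b c d h0)
  have hnN : |a ^ 2 - 12 * b ^ 2 + 4 * c ^ 2 - 12 * d ^ 2| ≤ ((⌈2 * C ^ 2⌉₊ : ℕ) : ℤ) := by
    have h1 : ((|a ^ 2 - 12 * b ^ 2 + 4 * c ^ 2 - 12 * d ^ 2| : ℤ) : ℝ) ≤
        ((⌈2 * C ^ 2⌉₊ : ℕ) : ℝ) := by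
      rw [Int.cast_abs, ← hdet]
      exact hdb.trans (Nat.le_ceil _)
    exact_mod_cast h1
  obtain ⟨x, hx, γ, hγ⟩ := hSN a b c d hn0 hnN
  refine ⟨γ, fun i j => ?_⟩
  have hunit : IsUnit (qm x.1 x.2.1 x.2.2.1 x.2.2.2).det := isUnit_iff_ne_zero.2 (hS x hx)
  have e1 : qm γ.a γ.b γ.c γ.d * g = (qm x.1 x.2.1 x.2.2.1 x.2.2.2)⁻¹ * h := by
    rw [hh, hγ, Matrix.mul_assoc, ← Matrix.mul_assoc, Matrix.nonsing_inv_mul _ hunit,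
      Matrix.one_mul]
  rw [e1, Matrix.mul_apply]
  calc |∑ k, ((qm x.1 x.2.1 x.2.2.1 x.2.2.2)⁻¹ : Matrix (Fin 2) (Fin 2) ℝ) i k * h k j|
      ≤ ∑ k, |((qm x.1 x.2.1 x.2.2.1 x.2.2.2)⁻¹ : Matrix (Fin 2) (Fin 2) ℝ) i k * h k j| :=
        Finset.abs_sum_le_sum_abs _ _
    _ ≤ ∑ k, |((qm x.1 x.2.1 x.2.2.1 x.2.2.2)⁻¹ : Matrix (Fin 2) (Fin 2) ℝ) i k| * C := by
        refine Finset.sum_le_sum fun k _ => ?_
        rw [abs_mul]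
        exact mul_le_mul_of_nonneg_left (hbd k j) (abs_nonneg _)
    _ = (∑ k, |((qm x.1 x.2.1 x.2.2.1 x.2.2.2)⁻¹ : Matrix (Fin 2) (Fin 2) ℝ) i k|) * C :=
        (Finset.sum_mul _ _ _).symm
    _ ≤ B * C := by
        refine mul_le_mul_of_nonneg_right ?_ hC0
        have h1 : ∑ k, |((qm x.1 x.2.1 x.2.2.1 x.2.2.2)⁻¹ : Matrix (Fin 2) (Fin 2) ℝ) i k| ≤
            ∑ i, ∑ k, |((qm x.1 x.2.1 x.2.2.1 x.2.2.2)⁻¹ : Matrix (Fin 2) (Fin 2) ℝ) i k| :=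
          Finset.single_le_sum (f := fun i => ∑ k,
            |((qm x.1 x.2.1 x.2.2.1 x.2.2.2)⁻¹ : Matrix (Fin 2) (Fin 2) ℝ) i k|)
            (fun i _ => Finset.sum_nonneg fun k _ => abs_nonneg _) (Finset.mem_univ i)
        exact h1.trans (Finset.single_le_sum (f := fun x : ℤ × ℤ × ℤ × ℤ => ∑ i, ∑ j,
          |((qm x.1 x.2.1 x.2.2.1 x.2.2.2)⁻¹ : Matrix (Fin 2) (Fin 2) ℝ) i j|)
          (fun x _ => Finset.sum_nonneg fun i _ => Finset.sum_nonneg fun j _ => abs_nonneg _) hx)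

end Pool.Agent.Y592.EX
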